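import Pool.Agent.W662.SK.StmtsA
import Pool.Agent.W662.SK.Basic

set_option autoImplicit false

open scoped InnerProductSpace ENNReal
open Filter Topology

namespace Pool.Agent.W605.SK

open Pool.Agent.W662.SK

noncomputable section

variable {K : Type} [NormedAddCommGroup K] [InnerProductSpace ℂ K]

/-- The shift by n. -/
def sh (n : ℕ) : L2 ℤ K ≃ₗᵢ[ℂ] L2 ℤ K :=
  isoL (Equiv.addRight (n : ℤ)) (fun _ => LinearIsometryEquiv.refl ℂ K)

theorem weak_single (y : L2 ℤ K) (a : ℤ) (u : K) :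
    Tendsto (fun n : ℕ => ⟪y, sh n (lp.single 2 a u : L2 ℤ K)⟫_ℂ) atTop (𝓝 0) := by
  have h1 : ∀ n : ℕ, ⟪y, sh n (lp.single 2 a u : L2 ℤ K)⟫_ℂ = ⟪y (a + n), u⟫_ℂ := by
    intro n
    unfold sh
    rw [isoL_single, inner_single_right']
    rfl
  simp only [h1]
  have h2 : Tendsto (fun m : ℤ => ‖y m‖ ^ 2) cofinite (𝓝 0) :=
    (norm_sq_hasSum y).summable.tendsto_cofinite_zero
  have h3 : Tendsto (fun n : ℕ => a + (n : ℤ)) atTop cofinite := by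
    rw [← Nat.cofinite_eq_atTop]
    refine Function.Injective.tendsto_cofinite ?_
    intro n m h
    simpa using h
  have h4 : Tendsto (fun n : ℕ => ‖y (a + n)‖) atTop (𝓝 0) := by
    have h5 := (h2.comp h3).sqrt
    simpa using h5
  refine squeeze_zero_norm (a := fun n : ℕ => ‖y (a + n)‖ * ‖u‖)
    (fun n => norm_inner_le_norm _ _) ?_
  simpa using h4.mul_const ‖u‖

theorem weak (x y : L2 ℤ K) :
    Tendsto (fun n : ℕ => ⟪y, sh n x⟫_ℂ) atTop (𝓝 0) := by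
  rw [Metric.tendsto_atTop]
  intro ε hε
  have h1 := hasSum_single' x
  have h2 : ∀ᶠ F : Finset ℤ in atTop,
      dist (∑ i ∈ F, (lp.single 2 i (x i) : L2 ℤ K)) x < ε / (2 * (‖y‖ + 1)) :=
    Metric.tendsto_nhds.1 h1 _ (by positivity)
  obtain ⟨F, hF⟩ := h2.exists
  rw [dist_eq_norm] at hF
  have h3 : Tendsto (fun n : ℕ => ⟪y, sh n (∑ i ∈ F, (lp.single 2 i (x i) : L2 ℤ K))⟫_ℂ)
      atTop (𝓝 0) := by
    have h4 : ∀ n : ℕ, ⟪y, sh n (∑ i ∈ F, (lp.single 2 i (x i) : L2 ℤ K))⟫_ℂ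
        = ∑ i ∈ F, ⟪y, sh n (lp.single 2 i (x i) : L2 ℤ K)⟫_ℂ := by
      intro n
      rw [map_sum, inner_sum]
    simp only [h4]
    have h5 := tendsto_finsetSum F (fun i _ => weak_single y i (x i))
    simpa using h5
  obtain ⟨N, hN⟩ := Metric.tendsto_atTop.1 h3 (ε / 2) (by positivity)
  refine ⟨N, fun n hn => ?_⟩
  have h6 := hN n hn
  rw [dist_zero_right] at h6 ⊢
  set x' := ∑ i ∈ F, (lp.single 2 i (x i) : L2 ℤ K) with hx'
  have h7 : ⟪y, sh n x⟫_ℂ = ⟪y, sh n x'⟫_ℂ - ⟪y, sh n (x' - x)⟫_ℂ := by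
    rw [map_sub, inner_sub_right]; ring
  have h8 : ‖⟪y, sh n (x' - x)⟫_ℂ‖ ≤ ‖y‖ * ‖x' - x‖ := by
    refine (norm_inner_le_norm _ _).trans ?_
    rw [LinearIsometryEquiv.norm_map]
  have h9 : ‖y‖ * ‖x' - x‖ ≤ ε / 2 := by
    have h10 : ‖y‖ * ‖x' - x‖ ≤ (‖y‖ + 1) * (ε / (2 * (‖y‖ + 1))) :=
      mul_le_mul (by linarith) hF.le (norm_nonneg _) (by positivity)
    refine h10.trans (le_of_eq ?_)
    field_simp
  rw [h7]
  have := norm_sub_le (⟪y, sh n x'⟫_ℂ) (⟪y, sh n (x' - x)⟫_ℂ)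
  linarith

theorem l1 : S_L1 := by
  intro Γ K _ _ _ _ π π'
  refine ⟨⟨fun n => (sh n).toLinearIsometry, ?_, ?_, ?_⟩⟩
  · intro n g x; rfl
  · intro n g x; rfl
  · intro x y
    exact weak x y

end

end Pool.Agent.W605.SK
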